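import Pool.Agent.H56.Wk9

namespace Pool.Agent.Results.MP_6562b9_an.Bound

open Set Filter Topology MeasureTheory

/-- Explicit weak type `n / (n - 1)` bound for every continuous root of a monic polynomial of
degree `n` with `C^{n-1,1}` coefficients. -/
theorem result (n : ℕ) (hn : 2 ≤ n) : ∃ C : ℝ, 0 < C ∧
    ∀ (α β A : ℝ) (a : ℕ → ℝ → ℂ) (l : ℝ → ℂ), α < β → 0 < A →
      (∀ j ∈ Finset.Icc 1 n, ContDiffOn ℝ (n - 1 : ℕ) (a j) (Icc α β) ∧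
        (∀ t ∈ Icc α β, ‖a j t‖ ≤ A ^ j) ∧
        ∀ s ∈ Icc α β, ∀ t ∈ Icc α β, ‖iteratedDerivWithin (n - 1) (a j) (Icc α β) s -
          iteratedDerivWithin (n - 1) (a j) (Icc α β) t‖ ≤ A ^ j * |s - t|) →
      ContinuousOn l (Ioo α β) →
      (∀ t ∈ Ioo α β, l t ^ n + ∑ j ∈ Finset.Icc 1 n, a j t * l t ^ (n - j) = 0) →
      ∀ r : ℝ, 0 < r →
        ENNReal.ofReal r * volume {t ∈ Ioo α β | r < ‖deriv l t‖ ∨
          ¬ ∀ᶠ s in 𝓝 t, ‖l s - l t‖ ≤ r * |s - t|} ^ (((n : ℝ) - 1) / n) ≤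
          ENNReal.ofReal (C * ((β - α) ^ (((n : ℝ) - 1) / n) / min 1 (β - α)) * A) := by
  obtain ⟨C, hC, h⟩ := Pool.Agent.H56.Wk9.bound n hn
  refine ⟨C, hC, fun α β A a l hαβ hA ha hl h0 r hr => ?_⟩
  have e : {t ∈ Ioo α β | r < ‖deriv l t‖ ∨ ¬ ∀ᶠ s in 𝓝 t, ‖l s - l t‖ ≤ r * |s - t|} =
      {t ∈ Ioo α β | ¬ ∀ᶠ s in 𝓝 t, ‖l s - l t‖ ≤ r * |s - t|} := by
    apply Subset.antisymm
    · rintro t ⟨h1, h2 | h2⟩
      · exact Pool.Agent.H56.Wk9.sub_bad l hr α β ⟨h1, h2⟩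
      · exact ⟨h1, h2⟩
    · rintro t ⟨h1, h2⟩
      exact ⟨h1, Or.inr h2⟩
  rw [e]
  exact h α β A a l hαβ hA ha hl h0 r hr

end Pool.Agent.Results.MP_6562b9_an.Bound
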